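import Pool.Agent.W544.KF.Defs2

/-! Part KF-SUP of project KF (helper544). -/

set_option autoImplicit false

open CategoryTheory MonoidalCategory

namespace W166.KF.SUP

open Pool.Agent.W544.KF

universe w v u

theorem sup : S_sup.{v,u} := by
  intro D _ _ _ X Y _ A B C f
  unfold ptr
  monoidal

theorem yank : S_yank.{v,u} := by
  intro D _ _ _ X Y _
  have h1 : ptr (A := X) (B := X) X Y (β_ X X).hom =
      (ρ_ X).inv ≫ (X ◁ η_ X Y ≫ (β_ X (X ⊗ Y)).hom) ≫ (α_ X Y X).hom ≫ X ◁ ε_ X Y ≫
        (ρ_ X).hom := by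
    rw [BraidedCategory.braiding_tensor_right_hom]
    unfold ptr
    monoidal
  rw [h1, BraidedCategory.braiding_naturality_right, braiding_tensorUnit_right]
  have h2 := ExactPairing.evaluation_coevaluation X Y
  simp only [Category.assoc]
  rw [reassoc_of% h2]
  simp

end W166.KF.SUP
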